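import Pool.Agent.helper89.EZ.SpecC

set_option autoImplicit false

open Complex Metric Set Filter Topology MeasureTheory
open Pool.Agent.helper98.ILF
open HY (UD T S hd UN RM)
open DH (co)

noncomputable section

namespace EZ

theorem LVC (h : DH.COP_stmt) : LVC_stmt := by
  intro c V φ hV
  exact h V c φ hV.rm

end EZ
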